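import Mathlib

set_option autoImplicit false

namespace Pool.Agent.Results.MP_0e842d_nt.Growth

open Finset Filter

def Good (k a₁ a₂ : ℕ) : Prop :=
  ∃ p : ℕ, p.Prime ∧ p ^ k + a₁ + a₂ ≤ a₁ * a₂ ∧ ∃ x y : ℕ, p ^ k = a₁ * x + a₂ * y

lemma exists_bad (k m A : ℕ) (hA : 0 < A) (h1 : 2 * m ^ (k + 1) < A ^ 2)
    (h2 : 4 * A ^ 2 ≤ (m + 1) ^ k) : ∃ a, A ≤ a ∧ ¬ Good k a (a + 1) := by
  by_contra hc
  push Not at hc
  have sub : Ico A (2 * A) ⊆ ((Ioc 0 m ×ˢ Ioc 0 (m ^ k / A)) ×ˢ range 2).image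
      fun t => t.1.1 ^ k / t.1.2 - t.2 := by
    intro a ha
    obtain ⟨a1, a2⟩ := mem_Ico.mp ha
    obtain ⟨p, hp, h3, x, y, h4⟩ := hc a a1
    have hpm : p ≤ m := by
      have : p ^ k < (m + 1) ^ k := by nlinarith
      exact Nat.lt_succ_iff.mp (lt_of_pow_lt_pow_left₀ k (Nat.zero_le _) this)
    have hpk : 0 < p ^ k := pow_pos hp.pos k
    have hxy : 0 < x + y := by
      by_contra h
      obtain ⟨rfl, rfl⟩ : x = 0 ∧ y = 0 := by omega
      omega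
    have l1 : a ≤ p ^ k / (x + y) := (Nat.le_div_iff_mul_le hxy).mpr (by nlinarith)
    have l2 : p ^ k / (x + y) < a + 2 := (Nat.div_lt_iff_lt_mul hxy).mpr (by nlinarith)
    have l3 : x + y ≤ m ^ k / A := (Nat.le_div_iff_mul_le hA).mpr (by
      have := Nat.pow_le_pow_left hpm k
      nlinarith)
    refine mem_image.mpr ⟨((p, x + y), p ^ k / (x + y) - a), ?_, by simp only; omega⟩
    simp only [mem_product, mem_Ioc, mem_range]
    exact ⟨⟨⟨hp.pos, hpm⟩, hxy, l3⟩, by omega⟩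
  have := (card_le_card sub).trans card_image_le
  simp only [Nat.card_Ico, card_product, Nat.card_Ioc, card_range, tsub_zero] at this
  have h5 := Nat.div_mul_le_self (m ^ k) A
  have h6 : A ≤ m * (m ^ k / A) * 2 := by omega
  have h7 := Nat.mul_le_mul_right A h6
  have h8 := Nat.mul_le_mul_left m h5
  rw [pow_succ] at h1
  nlinarith

theorem result (M : ℝ) (hM : 0 < M) : ∃ k₀ : ℕ, ∀ k ≥ k₀, ∀ N : ℕ, 1 ≤ N →
    (∀ a₁ a₂ : ℕ, N < a₁ → a₁ < a₂ → a₁.Coprime a₂ → Good k a₁ a₂) → M ^ k < N := by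
  obtain ⟨e, he⟩ := exists_nat_gt M
  have e0 : 0 < e := by exact_mod_cast hM.trans he
  obtain ⟨m, hm⟩ : ∃ m, (2 * e) ^ 2 = m + 1 := ⟨(2 * e) ^ 2 - 1, by
    have : 0 < (2 * e) ^ 2 := by positivity
    omega⟩
  have t := tendsto_pow_atTop_nhds_zero_of_lt_one (r := (m : ℝ) / (m + 1)) (by positivity)
    (by rw [div_lt_one (by positivity)]; linarith)
  obtain ⟨k₀, hk₀⟩ := eventually_atTop.mp
    (t.eventually (gt_mem_nhds (show (0 : ℝ) < 1 / (8 * m + 1) by positivity)))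
  refine ⟨k₀ + 1, fun k hk N _ h => ?_⟩
  obtain ⟨j, rfl⟩ : ∃ j, k = j + 1 := ⟨k - 1, by omega⟩
  have h1 := hk₀ (j + 1) (by omega)
  rw [div_pow, div_lt_div_iff₀ (by positivity) (by positivity)] at h1
  have h2 : m ^ (j + 1) * (8 * m + 1) < 1 * (m + 1) ^ (j + 1) := by exact_mod_cast h1
  have h3 : 4 * (2 ^ j * e ^ (j + 1)) ^ 2 = (m + 1) ^ (j + 1) := by
    rw [← hm, ← pow_mul]
    ring
  obtain ⟨a, ha, hb⟩ := exists_bad (j + 1) m (2 ^ j * e ^ (j + 1)) (by positivity)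
    (by rw [pow_succ m (j + 1)]; nlinarith [Nat.zero_le (m ^ (j + 1))]) h3.le
  have h4 : a ≤ N := by
    by_contra hc
    exact hb (h a (a + 1) (by omega) (by omega) (by simp))
  have h5 : e ^ (j + 1) ≤ N := le_trans (Nat.le_mul_of_pos_left _ (by positivity)) (ha.trans h4)
  calc M ^ (j + 1) < (e : ℝ) ^ (j + 1) := pow_lt_pow_left₀ he hM.le (by omega)
    _ ≤ N := by exact_mod_cast h5

end Pool.Agent.Results.MP_0e842d_nt.Growth
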